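import Pool.Agent.helper64.D2.SpecR

set_option autoImplicit false

open Filter Topology
open scoped commutatorElement

namespace Pool.Agent.helper64.D2

theorem RI4_zero {X : ℝ → ℝ} {p q : ℝ} (hX : ∀ x, x ∉ Set.Icc p q → X x = 0) (w : ℝ)
    (hw : w ∉ Set.Icc p q) : d2 X w = 0 := by
  have h1 : ∀ᶠ y in 𝓝 w, y ∉ Set.Icc p q := isClosed_Icc.isOpen_compl.mem_nhds hw
  have h2 : X =ᶠ[𝓝 w] fun _ => (0 : ℝ) := by
    filter_upwards [h1] with y hy using hX y hy
  have h3 : deriv X =ᶠ[𝓝 w] deriv (fun _ => (0 : ℝ)) := h2.deriv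
  have h4 : deriv (deriv X) w = deriv (deriv (fun _ => (0 : ℝ))) w := h3.deriv_eq
  unfold d2
  rw [h4]
  simp

theorem RI4_cont {X : ℝ → ℝ} (hX : ContDiff ℝ 2 X) : Continuous (deriv X) ∧ Continuous (d2 X) := by
  have h1 : ContDiff ℝ 1 (deriv X) := by
    have := (contDiff_succ_iff_deriv (n := 1) (f := X)).1 (by simpa [one_add_one_eq_two] using hX)
    exact this.2.2
  refine ⟨h1.continuous, ?_⟩
  exact h1.continuous_deriv le_rfl

theorem RI4 (hRI2 : RI2_stmt) (hRI3 : RI3_stmt) (hRC1 : RC1_stmt) : RI4_stmt := by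
  intro X G p q a lam hSH hG β μ hβ0 hβ1 hμ
  obtain ⟨hX, hX0, hX1, hX2, hp, hpq, hq, hlam0, hlam1, ha⟩ := id hSH
  obtain ⟨hc1, hc2⟩ := RI4_cont hX
  have hcG : Continuous G := hG.2.2
  have hcH : Continuous (Hh X) := by
    unfold Hh
    exact continuous_id.add (hX.continuous.div_const 2)
  have hpos : ∀ y, 0 < 1 + deriv X y / 2 := by
    intro y
    have := (abs_le.1 (hX1 y)).1
    linarith
  set x : ℝ → ℝ := fun w => μ * d2 X w with hxdef
  have hcx : Continuous x := continuous_const.mul hc2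
  set s : ℝ → ℝ := fun t => Real.sinh t - t with hsdef
  have hcs : Continuous s := Real.continuous_sinh.sub continuous_id
  set F : ℝ → ℝ → ℝ := fun u w => x u * s (x w) with hF
  have hcF : Continuous (fun z : ℝ × ℝ => F z.1 z.2) := by
    exact (hcx.comp continuous_fst).mul (hcs.comp (hcx.comp continuous_snd))
  have hF0 : ∀ u w, w ∉ Set.Icc (1 / 4 : ℝ) (3 / 4) → F u w = 0 := by
    intro u w hw
    have h1 : w ∉ Set.Icc p q := fun h => hw ⟨hp.trans h.1, h.2.trans hq⟩
    simp [hF, hsdef, hxdef, RI4_zero hX0 w h1]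
  have step1 : (∫ θ in (0 : ℝ)..β, ∫ u in (0 : ℝ)..1, μ * d2 X u * (Real.sinh (μ * d2 X (G (Hh X u - θ))) - μ * d2 X (G (Hh X u - θ))))
      = ∫ θ in (0 : ℝ)..β, ∫ w in (0 : ℝ)..1, F (G (Hh X w + θ)) w * ((1 + deriv X w / 2) / (1 + deriv X (G (Hh X w + θ)) / 2)) := by
    apply intervalIntegral.integral_congr
    intro θ hθ
    rw [Set.uIcc_of_le hβ0] at hθ
    exact hRI3 X G p q a lam hSH hG F θ hcF hF0 hθ.1 (hθ.2.trans hβ1)
  have hcU : Continuous (fun z : ℝ × ℝ => G (Hh X z.2 + z.1)) :=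
    hcG.comp ((hcH.comp continuous_snd).add continuous_fst)
  have hcI : Continuous (fun z : ℝ × ℝ => F (G (Hh X z.2 + z.1)) z.2 * ((1 + deriv X z.2 / 2) / (1 + deriv X (G (Hh X z.2 + z.1)) / 2))) := by
    refine Continuous.mul ?_ (Continuous.div ?_ ?_ ?_)
    · exact (hcx.comp hcU).mul (hcs.comp (hcx.comp continuous_snd))
    · exact continuous_const.add ((hc1.comp continuous_snd).div_const 2)
    · exact continuous_const.add ((hc1.comp hcU).div_const 2)
    · intro z
      exact (hpos _).ne'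
  have step2 : (∫ θ in (0 : ℝ)..β, ∫ w in (0 : ℝ)..1, F (G (Hh X w + θ)) w * ((1 + deriv X w / 2) / (1 + deriv X (G (Hh X w + θ)) / 2)))
      = ∫ w in (0 : ℝ)..1, ∫ θ in (0 : ℝ)..β, F (G (Hh X w + θ)) w * ((1 + deriv X w / 2) / (1 + deriv X (G (Hh X w + θ)) / 2)) := by
    apply MeasureTheory.intervalIntegral_intervalIntegral_swap
    have h1 : MeasureTheory.IntegrableOn (Function.uncurry fun θ w : ℝ => F (G (Hh X w + θ)) w * ((1 + deriv X w / 2) / (1 + deriv X (G (Hh X w + θ)) / 2)))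
        (Set.uIcc (0 : ℝ) β ×ˢ Set.uIcc (0 : ℝ) 1) := by
      apply ContinuousOn.integrableOn_compact (isCompact_uIcc.prod isCompact_uIcc)
      exact hcI.continuousOn
    exact h1.mono_set (Set.prod_mono Set.uIoc_subset_uIcc Set.uIoc_subset_uIcc)
  have step3 : ∀ w, (∫ θ in (0 : ℝ)..β, F (G (Hh X w + θ)) w * ((1 + deriv X w / 2) / (1 + deriv X (G (Hh X w + θ)) / 2)))
      = s (x w) * (1 + deriv X w / 2) * ∫ θ in (0 : ℝ)..β, μ * d2 X (G (Hh X w + θ)) / (1 + deriv X (G (Hh X w + θ)) / 2) := by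
    intro w
    rw [← intervalIntegral.integral_const_mul]
    apply intervalIntegral.integral_congr
    intro θ _
    simp only [hF, hxdef]
    ring
  have step4 : ∀ w, |∫ θ in (0 : ℝ)..β, F (G (Hh X w + θ)) w * ((1 + deriv X w / 2) / (1 + deriv X (G (Hh X w + θ)) / 2))|
      ≤ (Real.cosh (μ * d2 X w) - 1) * (3 * μ * lam) := by
    intro w
    rw [step3 w, abs_mul, abs_mul]
    have h1 : |s (x w)| ≤ Real.cosh (μ * d2 X w) - 1 := hRC1.1 _
    have h2 : |1 + deriv X w / 2| ≤ 1 + lam / 2 := by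
      rw [abs_of_pos (hpos w)]
      have := (abs_le.1 (hX1 w)).2
      linarith
    have h3 := (hRI2 X G p q a lam hSH hG w β μ hβ0 hμ).2.2
    have h4 : 0 ≤ Real.cosh (μ * d2 X w) - 1 := by linarith [Real.one_le_cosh (μ * d2 X w)]
    calc |s (x w)| * |1 + deriv X w / 2| * |∫ θ in (0 : ℝ)..β, μ * d2 X (G (Hh X w + θ)) / (1 + deriv X (G (Hh X w + θ)) / 2)|
        ≤ (Real.cosh (μ * d2 X w) - 1) * (1 + lam / 2) * (2 * μ * lam) := by
          apply mul_le_mul _ h3 (abs_nonneg _) (by positivity)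
          apply mul_le_mul h1 h2 (abs_nonneg _) h4
      _ = (Real.cosh (μ * d2 X w) - 1) * ((1 + lam / 2) * (2 * (μ * lam))) := by ring
      _ ≤ (Real.cosh (μ * d2 X w) - 1) * (3 * μ * lam) := by
          apply mul_le_mul_of_nonneg_left _ h4
          have h5 : 0 ≤ μ * lam := mul_nonneg hμ hlam0
          nlinarith
  rw [step1, step2]
  have hcK : Continuous (fun w => (Real.cosh (μ * d2 X w) - 1) * (3 * μ * lam)) :=
    ((Real.continuous_cosh.comp hcx).sub continuous_const).mul continuous_const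
  calc |∫ w in (0 : ℝ)..1, ∫ θ in (0 : ℝ)..β, F (G (Hh X w + θ)) w * ((1 + deriv X w / 2) / (1 + deriv X (G (Hh X w + θ)) / 2))|
      ≤ ∫ w in (0 : ℝ)..1, (Real.cosh (μ * d2 X w) - 1) * (3 * μ * lam) := by
        rw [← Real.norm_eq_abs]
        apply intervalIntegral.norm_integral_le_of_norm_le (by norm_num)
        · exact Filter.Eventually.of_forall fun w _ => by
            rw [Real.norm_eq_abs]; exact step4 w
        · exact hcK.intervalIntegrable _ _
    _ = 3 * μ * lam * KK X μ := by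
        rw [intervalIntegral.integral_mul_const]
        unfold KK
        ring

end Pool.Agent.helper64.D2
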