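import Pool.Agent.helper64.D2.SpecS

set_option autoImplicit false

open Filter Topology
open scoped commutatorElement

namespace Pool.Agent.helper64.D2

theorem SM1_out (u : ℝ) (k : ℕ) (hk : k ≠ ⌊u⌋₊) : u - (k : ℝ) ∉ Set.Ioo (0 : ℝ) 1 := by
  rintro ⟨h1, h2⟩
  apply hk
  symm
  have hk0 : (0 : ℝ) ≤ (k : ℝ) := Nat.cast_nonneg k
  rw [Nat.floor_eq_iff (by linarith)]
  exact ⟨by linarith, by linarith⟩

theorem SM1_sum (c : ℕ → DD) (N : ℕ) (hN : 1 ≤ N) (u : ℝ) (hu : u < (N : ℝ)) :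
    slot c u = u + ∑ k ∈ Finset.range N, (ev (c k) (u - (k : ℝ)) - (u - (k : ℝ))) := by
  have hmem : ⌊u⌋₊ ∈ Finset.range N := by
    rw [Finset.mem_range, Nat.floor_lt' (by omega)]
    exact hu
  rw [Finset.sum_eq_single_of_mem ⌊u⌋₊ hmem]
  · unfold slot; ring
  · intro k _ hk
    rw [ev_out (c k) _ (SM1_out u k hk)]; ring

theorem SM1_contDiff (c : ℕ → DD) : ContDiff ℝ 2 (slot c) := by
  rw [contDiff_iff_contDiffAt]
  intro u0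
  obtain ⟨N, hN⟩ := exists_nat_gt (max u0 1)
  have h1 : u0 < (N : ℝ) := lt_of_le_of_lt (le_max_left _ _) hN
  have h2 : 1 ≤ N := by
    have : (1 : ℝ) < (N : ℝ) := lt_of_le_of_lt (le_max_right _ _) hN
    exact_mod_cast this.le
  have h3 : ContDiffAt ℝ 2 (fun u : ℝ => u + ∑ k ∈ Finset.range N, (ev (c k) (u - (k : ℝ)) - (u - (k : ℝ)))) u0 := by
    apply ContDiff.contDiffAt
    apply ContDiff.add contDiff_id
    apply ContDiff.sum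
    intro k _
    have h4 : ContDiff ℝ 2 (fun u : ℝ => u - (k : ℝ)) := contDiff_id.sub contDiff_const
    exact ((ev_contDiff (c k)).comp h4).sub h4
  apply h3.congr_of_eventuallyEq
  filter_upwards [Iio_mem_nhds h1] with u hu
  exact SM1_sum c N h2 u hu

theorem SM1_local (c : ℕ → DD) (k : ℕ) (u : ℝ) (hu : u ∈ Set.Ioo (k : ℝ) ((k : ℝ) + 1)) :
    slot c =ᶠ[𝓝 u] fun v => (k : ℝ) + ev (c k) (v - (k : ℝ)) := by
  filter_upwards [Ioo_mem_nhds hu.1 hu.2] with v hv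
  have hk0 : (0 : ℝ) ≤ (k : ℝ) := Nat.cast_nonneg k
  have h : ⌊v⌋₊ = k := by
    rw [Nat.floor_eq_iff (by linarith [hv.1])]
    exact ⟨hv.1.le, hv.2⟩
  unfold slot
  rw [h]

theorem SM1_deriv (c : ℕ → DD) (k : ℕ) (v : ℝ) :
    deriv (fun v => (k : ℝ) + ev (c k) (v - (k : ℝ))) v = deriv (ev (c k)) (v - (k : ℝ)) := by
  rw [deriv_const_add, deriv_comp_sub_const]

theorem SM1_deriv_slot (c : ℕ → DD) (k : ℕ) (u : ℝ) (hu : u ∈ Set.Ioo (k : ℝ) ((k : ℝ) + 1)) :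
    deriv (slot c) u = deriv (ev (c k)) (u - (k : ℝ)) ∧ d2 (slot c) u = d2 (ev (c k)) (u - (k : ℝ)) := by
  have h1 := SM1_local c k u hu
  constructor
  · rw [h1.deriv_eq, SM1_deriv]
  · unfold d2
    have h2 : deriv (slot c) =ᶠ[𝓝 u] fun v => deriv (ev (c k)) (v - (k : ℝ)) := by
      filter_upwards [Ioo_mem_nhds hu.1 hu.2] with v hv
      rw [(SM1_local c k v hv).deriv_eq, SM1_deriv]
    rw [h2.deriv_eq, deriv_comp_sub_const]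

theorem SM1_bound (hSZC : SZC_stmt) (c : ℕ → DD) (a : ℕ → ℝ) (ha : ∀ k, Sz (c k) (a k)) (k : ℕ) (u : ℝ)
    (hu : u ∈ Set.Icc (k : ℝ) ((k : ℝ) + 1)) :
    |d2 (slot c) u| ≤ a k ∧ |deriv (slot c) u - 1| ≤ a k ∧ |slot c u - u| ≤ a k := by
  obtain ⟨-, hB, -⟩ := hSZC
  have hC := SM1_contDiff c
  have hd : ContDiff ℝ 1 (deriv (slot c)) := by
    have h := hC
    rw [show (2 : WithTop ℕ∞) = 1 + 1 from by norm_num, contDiff_succ_iff_deriv] at h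
    exact h.2.2
  have hc0 : Continuous (slot c) := hC.continuous
  have hc1 : Continuous (deriv (slot c)) := hd.continuous
  have hc2 : Continuous (d2 (slot c)) := hd.continuous_deriv le_rfl
  have hcl : IsClosed {v : ℝ | |d2 (slot c) v| ≤ a k ∧ |deriv (slot c) v - 1| ≤ a k ∧ |slot c v - v| ≤ a k} := by
    apply IsClosed.inter (isClosed_le hc2.abs continuous_const)
    apply IsClosed.inter (isClosed_le (hc1.sub continuous_const).abs continuous_const)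
    exact isClosed_le (hc0.sub continuous_id).abs continuous_const
  have hsub : Set.Ioo (k : ℝ) ((k : ℝ) + 1) ⊆
      {v : ℝ | |d2 (slot c) v| ≤ a k ∧ |deriv (slot c) v - 1| ≤ a k ∧ |slot c v - v| ≤ a k} := by
    intro v hv
    obtain ⟨e1, e2⟩ := SM1_deriv_slot c k v hv
    have e3 := (SM1_local c k v hv).eq_of_nhds
    refine ⟨?_, ?_, ?_⟩
    · rw [e2]; exact ha k _
    · rw [e1]; exact (hB (c k) (a k) (ha k) _).1
    · rw [e3]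
      have h := (hB (c k) (a k) (ha k) (v - (k : ℝ))).2
      have e4 : (k : ℝ) + ev (c k) (v - (k : ℝ)) - v = ev (c k) (v - (k : ℝ)) - (v - (k : ℝ)) := by ring
      show |(k : ℝ) + ev (c k) (v - (k : ℝ)) - v| ≤ a k
      rw [e4]; exact h
  have h := closure_minimal hsub hcl
  rw [closure_Ioo (by linarith)] at h
  exact h hu

theorem SM1_sq (x a : ℝ) (h : |x| ≤ a) : x ^ 2 ≤ a ^ 2 := by
  rw [← sq_abs x]
  exact pow_le_pow_left₀ (abs_nonneg x) h 2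

theorem SM1 (hSZC : SZC_stmt) : SM1_stmt := by
  intro c hc
  obtain ⟨hc0, a, ha, hs⟩ := hc
  have hlow : ∀ u : ℝ, u ≤ 1 → slot c u = u := by
    intro u hu
    have hf : ⌊u⌋₊ < 2 := by
      rw [Nat.floor_lt' (by norm_num)]
      push_cast; linarith
    unfold slot
    rw [hc0 _ hf, ev_one]; ring
  have hG : Tendsto (fun u : ℝ => 8 * (((⌊u⌋₊ : ℕ) : ℝ) ^ 3 * a ⌊u⌋₊ ^ 2)) atTop (𝓝 0) := by
    have h1 : Tendsto (fun k : ℕ => 8 * ((k : ℝ) ^ 3 * a k ^ 2)) atTop (𝓝 0) := by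
      simpa using ha.const_mul 8
    exact h1.comp tendsto_nat_floor_atTop
  have hkey : ∀ u : ℝ, 1 ≤ u → (u ≤ 2 * ((⌊u⌋₊ : ℕ) : ℝ) ∧ 1 ≤ ((⌊u⌋₊ : ℕ) : ℝ)) ∧
      (|d2 (slot c) u| ≤ a ⌊u⌋₊ ∧ |deriv (slot c) u - 1| ≤ a ⌊u⌋₊ ∧ |slot c u - u| ≤ a ⌊u⌋₊) := by
    intro u hu
    have h1 : (1 : ℝ) ≤ ((⌊u⌋₊ : ℕ) : ℝ) := by exact_mod_cast Nat.one_le_floor_iff u |>.2 hu
    have h2 := Nat.lt_floor_add_one u
    have h3 := Nat.floor_le (show 0 ≤ u by linarith)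
    exact ⟨⟨by linarith, h1⟩, SM1_bound hSZC c a hs ⌊u⌋₊ u ⟨h3, h2.le⟩⟩
  refine ⟨slot c, SM1_contDiff c, fun _ _ => rfl, hlow, slot_ge_one c, ?_, ?_, ?_⟩
  · apply squeeze_zero' _ _ hG
    · filter_upwards [eventually_ge_atTop (1 : ℝ)] with u hu
      positivity
    · filter_upwards [eventually_ge_atTop (1 : ℝ)] with u hu
      obtain ⟨⟨h1, h2⟩, h3, h4, h5⟩ := hkey u hu
      have h6 := SM1_sq _ _ h3
      have h7 : u ^ 3 ≤ (2 * ((⌊u⌋₊ : ℕ) : ℝ)) ^ 3 := pow_le_pow_left₀ (by linarith) h1 3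
      calc u ^ 3 * d2 (slot c) u ^ 2 ≤ (2 * ((⌊u⌋₊ : ℕ) : ℝ)) ^ 3 * a ⌊u⌋₊ ^ 2 :=
            mul_le_mul h7 h6 (sq_nonneg _) (by positivity)
        _ = 8 * (((⌊u⌋₊ : ℕ) : ℝ) ^ 3 * a ⌊u⌋₊ ^ 2) := by ring
  · apply squeeze_zero' _ _ hG
    · filter_upwards [eventually_ge_atTop (1 : ℝ)] with u hu
      exact mul_nonneg (by linarith) (sq_nonneg _)
    · filter_upwards [eventually_ge_atTop (1 : ℝ)] with u hu
      obtain ⟨⟨h1, h2⟩, h3, h4, h5⟩ := hkey u hu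
      have h6 := SM1_sq _ _ h4
      have h7 : u ≤ 8 * ((⌊u⌋₊ : ℕ) : ℝ) ^ 3 := by
        have : ((⌊u⌋₊ : ℕ) : ℝ) ≤ ((⌊u⌋₊ : ℕ) : ℝ) ^ 3 := le_self_pow₀ h2 (by norm_num)
        linarith
      calc u * (deriv (slot c) u - 1) ^ 2 ≤ (8 * ((⌊u⌋₊ : ℕ) : ℝ) ^ 3) * a ⌊u⌋₊ ^ 2 :=
            mul_le_mul h7 h6 (sq_nonneg _) (by positivity)
        _ = 8 * (((⌊u⌋₊ : ℕ) : ℝ) ^ 3 * a ⌊u⌋₊ ^ 2) := by ring
  · apply squeeze_zero' _ _ hG
    · filter_upwards [eventually_ge_atTop (1 : ℝ)] with u hu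
      exact div_nonneg (sq_nonneg _) (by linarith)
    · filter_upwards [eventually_ge_atTop (1 : ℝ)] with u hu
      obtain ⟨⟨h1, h2⟩, h3, h4, h5⟩ := hkey u hu
      have h6 := SM1_sq _ _ h5
      have h8 : (slot c u - u) ^ 2 / u ≤ (slot c u - u) ^ 2 := div_le_self (sq_nonneg _) hu
      have h9 : (1 : ℝ) ≤ ((⌊u⌋₊ : ℕ) : ℝ) ^ 3 := one_le_pow₀ h2
      have h10 : a ⌊u⌋₊ ^ 2 ≤ ((⌊u⌋₊ : ℕ) : ℝ) ^ 3 * a ⌊u⌋₊ ^ 2 := le_mul_of_one_le_left (sq_nonneg _) h9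
      have h11 : 0 ≤ ((⌊u⌋₊ : ℕ) : ℝ) ^ 3 * a ⌊u⌋₊ ^ 2 := by positivity
      linarith

end Pool.Agent.helper64.D2
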